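import Mathlib
import Pool.Agent.C4U.Stmts

set_option autoImplicit false

namespace Pool.Agent.C4U.H95

theorem cov : CovStmt := by
  intro V hIm v hv
  have h1 : ∃ a, a < V.N ∧ V.J a ∧ V.Cl v a := by
    by_contra hcon
    push Not at hcon
    exact hIm v v ⟨hv, hv, Or.inl ⟨rfl, fun u hu hJ => hcon u hu hJ⟩⟩
  obtain ⟨a, ha, hJa, hva⟩ := h1
  by_cases h2 : ∃ b, b < V.N ∧ V.J b ∧ V.Cl v b ∧ b ≠ a
  · obtain ⟨b, hb, hJb, hvb, hba⟩ := h2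
    exact ⟨a, b, ha, hb, hJa, hJb, hv, hva, hvb, fun h => absurd h.symm hba⟩
  · refine ⟨a, a, ha, ha, hJa, hJa, hv, hva, hva, fun _ u hu hJ hvu => ?_⟩
    by_contra hne
    exact h2 ⟨u, hu, hJ, hvu, hne⟩

end Pool.Agent.C4U.H95
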